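import Pool.Agent.Work.MP_64ea0f_cs.InterfaceC

set_option autoImplicit false

namespace Pool.CS

theorem noi_period {Λ : Type} {G : SimpleGraph Λ} (H : Per G) (i n : ℤ) :
    H.s (i + H.k * n) = H.s i := by
  induction n using Int.induction_on with
  | zero => simp
  | succ n ih =>
    rw [← ih, show i + H.k * ((n : ℤ) + 1) = (i + H.k * n) + H.k by ring, H.per]
  | pred n ih =>
    rw [← ih, ← H.per (i + H.k * (-(n : ℤ) - 1))]
    congr 1
    ring

theorem noi_f2 {Λ : Type} {G : SimpleGraph Λ} (H : Per G) : ∀ (n : ℕ) (i j : ℤ), i < j →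
    j - i ≤ n → H.act i → H.act j → H.s i = H.s j → H.iso (H.s i) → False := by
  intro n
  induction n with
  | zero =>
    intro i j h1 h2
    push_cast at h2
    omega
  | succ n ih =>
    intro i j h1 h2 hi hj hs hiso
    obtain ⟨l, hl, h3, h4, h5⟩ := H.red' hi hj h1 hs
    have h6 : H.s l = H.s i := by
      rcases h5 with h5 | h5
      · exact h5
      · by_contra hne
        exact h5 (hiso l hne).symm
    refine ih i l h3 ?_ hi hl h6.symm hiso
    push_cast at h2
    omega

theorem noi_prod {A : Type} [CommMonoid A] (f : ℕ → A) (n : ℕ) :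
    ((List.range n).map f).prod = ∏ i ∈ Finset.range n, f i := by
  induction n with
  | zero => simp
  | succ n ih => rw [List.range_succ, List.map_append, List.prod_append, ih,
      Finset.prod_range_succ]; simp

open Classical in
theorem c_noi_thm : Stmt_C_NOI := by
  intro Λ G a g H hg i hiso
  set t := H.s i with ht
  let f : Λ → Multiplicative (ZMod 2) := fun b => if b = t then Multiplicative.ofAdd 1 else 1
  have hsq : ∀ c : Multiplicative (ZMod 2), c * c = 1 := by decide
  have h1 : ∀ b, f b * f b = 1 := fun b => hsq _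
  have h2 : ∀ b c, G.Adj b c → f b * f c = f c * f b := fun b c _ => mul_comm _ _
  let φ := rlift G f h1 h2
  have hφ : ∀ b, φ (rg G b) = f b := fun b => rlift_rg G f h1 h2 b
  have e1 : φ (wp G H.word) = 1 := by
    have e := congrArg φ hg
    rw [map_pow, map_mul, map_mul, map_inv, pow_two, hsq] at e
    rw [mul_comm (φ a), mul_assoc, mul_inv_cancel, mul_one] at e
    exact e.symm
  have e2 : φ (wp G H.word) = ∏ j ∈ Finset.range H.k, f (H.s (j + 1)) := by
    rw [← noi_prod, wp, map_list_prod, Per.word, List.map_map, List.map_map]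
    congr 1
    apply List.map_congr_left
    intro j _
    exact hφ _
  -- the place
  have hk : (0 : ℤ) < H.k := by exact_mod_cast H.pos
  have hm1 := Int.emod_nonneg (i - 1) hk.ne'
  have hm2 := Int.emod_lt_of_pos (i - 1) hk
  obtain ⟨j, hj⟩ := Int.eq_ofNat_of_zero_le hm1
  have hjk : j < H.k := by
    have : (j : ℤ) < H.k := by rw [hj] at hm2; exact hm2
    exact_mod_cast this
  have hsj : H.s (j + 1) = t := by
    have h3 := Int.emod_add_mul_ediv (i - 1) H.k
    have h4 : i = ((j : ℤ) + 1) + H.k * ((i - 1) / H.k) := by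
      rw [hj] at h3
      have h5 : (Int.ofNat j : ℤ) = (j : ℤ) := rfl
      linarith
    rw [ht]
    conv_rhs => rw [h4]
    rw [noi_period]
  have hact : ∀ l : ℕ, l < H.k → H.act (l + 1) := by
    intro l hl
    right
    constructor
    · omega
    · have : (l : ℤ) < H.k := by exact_mod_cast hl
      omega
  have e3 : ∏ l ∈ Finset.range H.k, f (H.s (l + 1)) = f (H.s (j + 1)) := by
    apply Finset.prod_eq_single j
    · intro l hl hne
      rw [Finset.mem_range] at hl
      have h6 : H.s (l + 1) ≠ t := by
        intro h7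
        rcases lt_or_gt_of_ne hne with h8 | h8
        · have h9 : ((l : ℤ) + 1) < (j : ℤ) + 1 := by
            have : (l : ℤ) < j := by exact_mod_cast h8
            omega
          refine noi_f2 H (j + 1) ((l : ℤ) + 1) ((j : ℤ) + 1) h9 ?_ (hact l hl) (hact j hjk)
            (h7.trans hsj.symm) (by rw [h7]; exact hiso)
          push_cast
          omega
        · have h9 : ((j : ℤ) + 1) < (l : ℤ) + 1 := by
            have : (j : ℤ) < l := by exact_mod_cast h8
            omega
          refine noi_f2 H (l + 1) ((j : ℤ) + 1) ((l : ℤ) + 1) h9 ?_ (hact j hjk) (hact l hl)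
            (hsj.trans h7.symm) (by rw [hsj]; exact hiso)
          push_cast
          omega
      exact if_neg h6
    · intro h
      exact (h (Finset.mem_range.2 hjk)).elim
  have e4 : f (H.s (j + 1)) = Multiplicative.ofAdd (1 : ZMod 2) := by
    rw [hsj]
    exact if_pos rfl
  rw [e2, e3, e4] at e1
  exact absurd e1 (by decide)

end Pool.CS
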