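import Pool.Agent.Work.MP_64ea0f_cs.InterfaceC

set_option autoImplicit false

namespace Pool.CS

theorem c_syc_thm : Stmt_C_SYC := by
  intro Λ G H Θ hΘ
  obtain ⟨hc, σ, hs, hf⟩ := hΘ
  refine ⟨?_, ?_⟩
  · intro D p D' hp
    induction hp with
    | nil D h => exact Per.Path.nil (Θ D) ((hc D).1 h)
    | cons D i w D' h hi hp ih =>
      have h1 : H.Cut (symmDiff (Θ D) {σ i}) := by
        rw [← hf]; exact (hc _).1 hi
      have h2 : H.Path (symmDiff (Θ D) {σ i}) w (Θ D') := by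
        rw [← hf]; exact ih
      have h3 := Per.Path.cons (Θ D) (σ i) w (Θ D') ((hc D).1 h) h1 h2
      rw [hs] at h3
      exact h3
  · intro M _ t x y hy hyx
    by_cases h : (∃ i, H.s i = t ∧ H.Cut (symmDiff x.1.1 {i})) ∧ Ok M t x.2
    · obtain ⟨⟨i, rfl, hi⟩, hu⟩ := h
      have h1 : H.Cut (symmDiff y.1.1 {σ i}) := by
        rw [hy, ← hf]; exact (hc _).1 hi
      have h2 : Ok M (H.s (σ i)) y.2 := by
        rw [hs, hyx]; exact hu
      have h3 := H.step_flip M y (σ i) h1 h2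
      rw [hs] at h3
      rw [h3, H.step_flip M x i hi hu]
      refine ⟨?_, hyx⟩
      change symmDiff y.1.1 {σ i} = Θ (symmDiff x.1.1 {i})
      rw [hy, hf]
    · have h' : ¬ ((∃ i, H.s i = t ∧ H.Cut (symmDiff y.1.1 {i})) ∧ Ok M t y.2) := by
        rintro ⟨⟨i, hi, hi2⟩, hu⟩
        refine h ⟨⟨σ.symm i, ?_, ?_⟩, ?_⟩
        · rw [← hs, Equiv.apply_symm_apply, hi]
        · rw [hc, hf, Equiv.apply_symm_apply, ← hy]; exact hi2
        · rw [← hyx]; exact hu
      rw [H.step_not M t x h, H.step_not M t y h']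
      exact ⟨hy, by rw [hyx]⟩

end Pool.CS
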